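import Pool.Agent.W181.WH.Stm

/-! WH-PHI1: the recursion for the Jacquet integral. -/

open MeasureTheory

namespace Pool.Agent.W352.WH

open Pool.Agent.W181.WH

lemma cont_lM {m : ℕ} : Continuous (fun v : LIdx m → ℝ => lM v) := by
  refine continuous_matrix fun i j => ?_
  unfold lM
  by_cases h : j < i
  · simp only [dif_pos h]
    exact continuous_apply _
  · simp only [dif_neg h]
    exact continuous_const

lemma cont_MU {m : ℕ} : Continuous (fun q : (Fin m → ℝ) × (LIdx m → ℝ) => MU q) := by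
  have h1 : Continuous (fun q : (Fin m → ℝ) × (LIdx m → ℝ) => lM q.2) :=
    cont_lM.comp continuous_snd
  have h2 : Continuous (fun q : (Fin m → ℝ) × (LIdx m → ℝ) =>
      Matrix.diagonal (fun i => q.1 i ^ 2)) := by
    refine Continuous.matrix_diagonal ?_
    fun_prop
  exact (h1.matrix_mul h2).matrix_mul h1.matrix_transpose

lemma cont_ML {m : ℕ} : Continuous (fun q : (Fin m → ℝ) × (LIdx m → ℝ) => ML q) := by
  have h1 : Continuous (fun q : (Fin m → ℝ) × (LIdx m → ℝ) => lM q.2) :=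
    cont_lM.comp continuous_snd
  have h2 : Continuous (fun q : (Fin m → ℝ) × (LIdx m → ℝ) =>
      Matrix.diagonal (fun i => q.1 i ^ 2)) := by
    refine Continuous.matrix_diagonal ?_
    fun_prop
  exact (h1.matrix_transpose.matrix_mul h2).matrix_mul h1

lemma meas_MU {m : ℕ} : Measurable (fun q : (Fin m → ℝ) × (LIdx m → ℝ) =>
    (fun i j => MU q i j : Fin m → Fin m → ℝ)) :=
  measurable_pi_lambda _ fun i => measurable_pi_lambda _ fun j =>
    (cont_MU.matrix_elem i j).measurable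

lemma meas_ML {m : ℕ} : Measurable (fun q : (Fin m → ℝ) × (LIdx m → ℝ) =>
    (fun i j => ML q i j : Fin m → Fin m → ℝ)) :=
  measurable_pi_lambda _ fun i => measurable_pi_lambda _ fun j =>
    (cont_ML.matrix_elem i j).measurable

lemma cont_PZ {m : ℕ} (x : Fin (m + 1) → ℝ) :
    Continuous (fun zv : (Fin m → ℝ) × (LIdx m → ℝ) => PZ x zv.1 zv.2) := by
  unfold PZ
  have h1 : Continuous (fun zv : (Fin m → ℝ) × (LIdx m → ℝ) => lM zv.2) :=
    cont_lM.comp continuous_snd
  have h2 : Continuous (fun zv : (Fin m → ℝ) × (LIdx m → ℝ) =>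
      Real.exp (2 * x 0) • Matrix.vecMulVec zv.1 zv.1) := by
    refine continuous_matrix fun i j => ?_
    simp only [Matrix.smul_apply, Matrix.vecMulVec_apply]
    fun_prop
  exact ((h1.matrix_mul continuous_const).matrix_mul h1.matrix_transpose).add h2

lemma cont_ch {m : ℕ} : Continuous (fun v : LIdx m → ℝ => ch v) := by
  unfold ch
  have h : Continuous (fun v : LIdx m → ℝ =>
      (∑ p : LIdx m, if (p.1.1 : ℕ) = (p.1.2 : ℕ) + 1 then v p else 0 : ℝ)) := by
    refine continuous_finsetSum _ fun p _ => ?_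
    by_cases h : (p.1.1 : ℕ) = (p.1.2 : ℕ) + 1
    · simp only [if_pos h]; exact continuous_apply _
    · simp only [if_neg h]; exact continuous_const
  exact Complex.continuous_exp.comp (continuous_const.mul (Complex.continuous_ofReal.comp h))

/-- the function `Phi` of matrix and vector -/
noncomputable def FF {m : ℕ} (μ : Fin (m + 1) → ℂ) (x : Fin (m + 2) → ℝ)
    (r : (Fin (m + 1) → Fin (m + 1) → ℝ) × ((Fin (m + 1) → ℝ) × (LIdx (m + 1) → ℝ))) : ℂ :=
  Phi μ x (Matrix.of r.1) r.2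

lemma meas_FF {m : ℕ} (μ : Fin (m + 1) → ℂ) (x : Fin (m + 2) → ℝ) : Measurable (FF μ x) := by
  unfold FF Phi
  have hM : Continuous (fun r : (Fin (m + 1) → Fin (m + 1) → ℝ) ×
      ((Fin (m + 1) → ℝ) × (LIdx (m + 1) → ℝ)) => (Matrix.of r.1 : Matrix _ _ ℝ)) :=
    continuous_fst
  have hP : Continuous (fun r : (Fin (m + 1) → Fin (m + 1) → ℝ) ×
      ((Fin (m + 1) → ℝ) × (LIdx (m + 1) → ℝ)) => PZ x r.2.1 r.2.2) :=
    (cont_PZ x).comp continuous_snd
  have htr := (hM.matrix_mul hP).matrix_trace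
  refine Measurable.mul (Measurable.mul ?_ ?_) ?_
  · exact (Complex.continuous_ofReal.comp (Real.continuous_exp.comp
      (continuous_const.mul htr))).measurable
  · refine Finset.measurable_prod _ fun j _ => ?_
    have h1 : Continuous (fun r : (Fin (m + 1) → Fin (m + 1) → ℝ) ×
      ((Fin (m + 1) → ℝ) × (LIdx (m + 1) → ℝ)) => ((Um (Matrix.of r.1) j : ℝ) : ℂ)) := by
      unfold Um
      exact Complex.continuous_ofReal.comp ((hM.matrix_submatrix _ _).matrix_det)
    exact h1.measurable.pow_const _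
  · refine Continuous.measurable ?_
    refine Continuous.mul ?_ (cont_ch.comp (continuous_snd.comp continuous_snd))
    refine Complex.continuous_exp.comp (continuous_const.mul (Complex.continuous_ofReal.comp ?_))
    exact (continuous_apply 0).comp (continuous_fst.comp continuous_snd)

instance sfU (m : ℕ) : SFinite (wU m) := by unfold wU; infer_instance
instance sfL (m : ℕ) : SFinite (wL m) := by unfold wL; infer_instance

lemma cmu_ne {m : ℕ} (μ : Fin m → ℂ) (h : ∀ k, 1 < (μ k).re) : cmu μ ≠ 0 := by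
  unfold cmu
  rw [Finset.prod_ne_zero_iff]
  intro i _
  refine div_ne_zero ?_ two_ne_zero
  unfold GR
  have hre : 0 < (1 + ∑ k : Fin m, if k ≤ i then μ k - 1 else 0 : ℂ).re := by
    rw [Complex.add_re, Complex.one_re, Complex.re_sum]
    have : 0 ≤ ∑ k : Fin m, (if k ≤ i then μ k - 1 else 0 : ℂ).re := by
      refine Finset.sum_nonneg fun k _ => ?_
      split_ifs
      · rw [Complex.sub_re, Complex.one_re]; linarith [h k]
      · simp
    linarith
  refine mul_ne_zero ?_ ?_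
  · rw [Ne, Complex.cpow_eq_zero_iff]
    rintro ⟨h1, -⟩
    exact Real.pi_ne_zero (by exact_mod_cast h1)
  · refine Complex.Gamma_ne_zero_of_re_pos ?_
    have e : ((1 + ∑ k : Fin m, if k ≤ i then μ k - 1 else 0 : ℂ) / 2).re =
        (1 + ∑ k : Fin m, if k ≤ i then μ k - 1 else 0 : ℂ).re / 2 := by
      rw [show (2 : ℂ) = ((2 : ℝ) : ℂ) by norm_num, Complex.div_ofReal_re]
    rw [e]
    positivity

theorem t_phi1 (hphi2 : S_PHI2) (hexch : S_EXCH) (hkey : S_KEY) (hsplit : S_SPLIT)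
    (hsplitc : S_SPLITC) : S_PHI1 := by
  intro m μ hμ hJ x
  set ν : Measure ((Fin (m + 1) → ℝ) × (LIdx (m + 1) → ℝ)) := volume.prod volume with hν
  obtain ⟨hint, hval⟩ := hphi2 m μ hμ hJ x
  -- exchange of the coordinates
  have hmapL : Measure.map (Prod.map (fun q : (Fin (m + 1) → ℝ) × (LIdx (m + 1) → ℝ) =>
      (fun i j => ML q i j : Fin (m + 1) → Fin (m + 1) → ℝ)) id) ((wL (m + 1)).prod ν) =
      (Measure.map (fun q : (Fin (m + 1) → ℝ) × (LIdx (m + 1) → ℝ) =>
        (fun i j => ML q i j : Fin (m + 1) → Fin (m + 1) → ℝ)) (wL (m + 1))).prod ν := by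
    rw [← Measure.map_prod_map _ _ meas_ML measurable_id, Measure.map_id]
  have hmapU : Measure.map (Prod.map (fun q : (Fin (m + 1) → ℝ) × (LIdx (m + 1) → ℝ) =>
      (fun i j => MU q i j : Fin (m + 1) → Fin (m + 1) → ℝ)) id) ((wU (m + 1)).prod ν) =
      (Measure.map (fun q : (Fin (m + 1) → ℝ) × (LIdx (m + 1) → ℝ) =>
        (fun i j => MU q i j : Fin (m + 1) → Fin (m + 1) → ℝ)) (wU (m + 1))).prod ν := by
    rw [← Measure.map_prod_map _ _ meas_MU measurable_id, Measure.map_id]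
  have hmap : Measure.map (Prod.map (fun q : (Fin (m + 1) → ℝ) × (LIdx (m + 1) → ℝ) =>
      (fun i j => MU q i j : Fin (m + 1) → Fin (m + 1) → ℝ)) id) ((wU (m + 1)).prod ν) =
      Measure.map (Prod.map (fun q : (Fin (m + 1) → ℝ) × (LIdx (m + 1) → ℝ) =>
      (fun i j => ML q i j : Fin (m + 1) → Fin (m + 1) → ℝ)) id) ((wL (m + 1)).prod ν) := by
    rw [hmapU, hmapL, hexch (m + 1)]
  have hFF := meas_FF μ x
  have mL : Measurable (Prod.map (fun q : (Fin (m + 1) → ℝ) × (LIdx (m + 1) → ℝ) =>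
      (fun i j => ML q i j : Fin (m + 1) → Fin (m + 1) → ℝ))
      (id : (Fin (m + 1) → ℝ) × (LIdx (m + 1) → ℝ) → _)) := meas_ML.prodMap measurable_id
  have mU : Measurable (Prod.map (fun q : (Fin (m + 1) → ℝ) × (LIdx (m + 1) → ℝ) =>
      (fun i j => MU q i j : Fin (m + 1) → Fin (m + 1) → ℝ))
      (id : (Fin (m + 1) → ℝ) × (LIdx (m + 1) → ℝ) → _)) := meas_MU.prodMap measurable_id
  have hintL : Integrable (FF μ x) (Measure.map (Prod.map
      (fun q : (Fin (m + 1) → ℝ) × (LIdx (m + 1) → ℝ) =>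
      (fun i j => ML q i j : Fin (m + 1) → Fin (m + 1) → ℝ)) id) ((wL (m + 1)).prod ν)) :=
    (integrable_map_measure hFF.aestronglyMeasurable mL.aemeasurable).mpr hint
  have hintU : Integrable (fun r : ((Fin (m + 1) → ℝ) × (LIdx (m + 1) → ℝ)) ×
      ((Fin (m + 1) → ℝ) × (LIdx (m + 1) → ℝ)) => Phi μ x (MU r.1) r.2)
      ((wU (m + 1)).prod ν) := by
    rw [← hmap] at hintL
    exact (integrable_map_measure hFF.aestronglyMeasurable mU.aemeasurable).mp hintL
  have hvalU : ∫ r, Phi μ x (MU r.1) r.2 ∂((wU (m + 1)).prod ν) = Rec μ x := by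
    rw [← hval]
    have e1 := integral_map (μ := (wU (m + 1)).prod ν) mU.aemeasurable
      (f := FF μ x) hFF.aestronglyMeasurable
    have e2 := integral_map (μ := (wL (m + 1)).prod ν) mL.aemeasurable
      (f := FF μ x) hFF.aestronglyMeasurable
    rw [hmap, e2] at e1
    exact e1.symm
  -- integration over the first variable
  obtain ⟨hmp, -, hemb, hBm, hpos⟩ := hsplit (m + 1)
  have hinner : ∀ zv : (Fin (m + 1) → ℝ) × (LIdx (m + 1) → ℝ),
      ∫ q, Phi μ x (MU q) zv ∂(wU (m + 1)) =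
        cmu μ * ((∏ k, ((Bm (PZ x zv.1 zv.2) k : ℝ) : ℂ) ^ (-(μ k) / 2)) *
          (Complex.exp (-(2 * Real.pi * Complex.I) * (zv.1 0 : ℂ)) * ch zv.2)) := by
    intro zv
    unfold Phi
    rw [integral_mul_const, (hkey (m + 1) μ hμ _ (hpos x zv.1 zv.2)).2]
    ring
  have hsplitI : ∀ v : LIdx (m + 2) → ℝ,
      cmu μ * ((∏ k, ((Bm (PZ x (colZ v) (colR v)) k : ℝ) : ℂ) ^ (-(μ k) / 2)) *
          (Complex.exp (-(2 * Real.pi * Complex.I) * (colZ v 0 : ℂ)) * ch (colR v))) =
        cmu μ * JnI μ x v := by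
    intro v
    unfold JnI
    rw [hsplitc m v]
    congr 2
    refine Finset.prod_congr rfl fun k _ => ?_
    rw [hBm x v k]
  have hG := hintU.integral_prod_right
  have hG' : Integrable (fun zv : (Fin (m + 1) → ℝ) × (LIdx (m + 1) → ℝ) =>
      cmu μ * ((∏ k, ((Bm (PZ x zv.1 zv.2) k : ℝ) : ℂ) ^ (-(μ k) / 2)) *
          (Complex.exp (-(2 * Real.pi * Complex.I) * (zv.1 0 : ℂ)) * ch zv.2))) ν :=
    hG.congr (Filter.Eventually.of_forall fun zv => hinner zv)
  have hc := cmu_ne μ hμ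
  constructor
  · have h1 := (hmp.integrable_comp_emb hemb).mpr hG'
    have h2 : Integrable (fun v => cmu μ * JnI μ x v) :=
      h1.congr (Filter.Eventually.of_forall fun v => hsplitI v)
    have h3 := h2.const_mul (cmu μ)⁻¹
    refine h3.congr (Filter.Eventually.of_forall fun v => ?_)
    simp only
    rw [← mul_assoc, inv_mul_cancel₀ hc, one_mul]
  · rw [← hvalU, integral_prod_symm _ hintU]
    have h1 : ∫ zv, ∫ q, Phi μ x (MU q) zv ∂(wU (m + 1)) ∂ν =
        ∫ zv : (Fin (m + 1) → ℝ) × (LIdx (m + 1) → ℝ),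
          cmu μ * ((∏ k, ((Bm (PZ x zv.1 zv.2) k : ℝ) : ℂ) ^ (-(μ k) / 2)) *
          (Complex.exp (-(2 * Real.pi * Complex.I) * (zv.1 0 : ℂ)) * ch zv.2)) ∂ν :=
      integral_congr_ae (Filter.Eventually.of_forall fun zv => hinner zv)
    rw [h1, ← hmp.integral_comp hemb]
    unfold Jn
    rw [← integral_const_mul]
    exact integral_congr_ae (Filter.Eventually.of_forall fun v => (hsplitI v).symm)

end Pool.Agent.W352.WH
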